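import Pool.Agent.H25.Ml2
import Pool.Agent.H16.TMHalt

set_option autoImplicit false

namespace Pool.Agent.Results.MP_5b5905_lc.Undecidable
open Pool.Agent.H25.Ml Turing StateTransition

theorem getD_range {β : Type} (f : ℕ → β) {i m : ℕ} (h : i < m) (d : β) :
    ((List.range m).map f).getD i d = f i := by simp [List.getD_eq_getElem?_getD, h]

theorem result : ¬ ∃ P : ℕ × ℕ × List (List (ℕ × ℕ)) → Prop, ComputablePred P ∧
    ∀ (m k : ℕ) (δ : Fin m → Fin k → Fin m) (o : Fin m → Fin k → Fin k),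
      P (m, k, List.ofFn fun q => List.ofFn fun a => ((δ q a : ℕ), (o q a : ℕ))) ↔ WR δ o := by
  rintro ⟨P, ⟨_, hP⟩, hW⟩
  obtain ⟨Γ, Λ, _, _, _, _, M, a, b, c, hM⟩ := Pool.Agent.H16.TMHalt.exists_tm
  obtain ⟨m, ⟨eQ⟩⟩ := Finite.exists_equiv_fin (Sy Γ Λ)
  obtain ⟨K, ⟨eF⟩⟩ := Finite.exists_equiv_fin (F Γ Λ)
  let dq : ℕ → Sy Γ Λ := fun q => if h : q < m then eQ.symm ⟨q, h⟩ else default
  let df : ℕ → F Γ Λ := fun q => if h : q < K then eF.symm ⟨q, h⟩ else default
  let TB : List (List (List (ℕ × ℕ × Bool))) := (List.range m).map fun q => (List.range K).map fun f =>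
    (List.range 4).map fun k => (eQ (d0 M a b c (dq q) (df f) k), eF (o0 M (dq q) (df f)), (dq q).2.1)
  let en : ℕ → ℕ → ℕ → ℕ × ℕ × Bool := fun n q x =>
    ((TB.getD q []).getD (x % K) []).getD (cls n (x / K)) (0, 0, false)
  let I : ℕ → ℕ × ℕ × List (List (ℕ × ℕ)) := fun n => (m, (n + 3) * K, (List.range m).map fun q =>
    (List.range ((n + 3) * K)).map fun x => ((en n q x).1,
      (en n q x).2.1 + K * bif (en n q x).2.2 then 0 else min (x / K + 1) (n + 2)))
  have hI : Primrec I := by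
    have h1 : Primrec fun p : (ℕ × ℕ) × ℕ => p.2 / K :=
      Primrec.nat_div.comp Primrec.snd (Primrec.const K)
    have h2 : Primrec fun p : (ℕ × ℕ) × ℕ => p.1.1 := Primrec.fst.comp Primrec.fst
    have h3 : Primrec fun p : (ℕ × ℕ) × ℕ => cls p.1.1 (p.2 / K) :=
      Primrec.ite (Primrec.nat_le.comp h1 (Primrec.const 1)) h1
        (Primrec.ite (Primrec.nat_le.comp h1 (Primrec.succ.comp h2)) (Primrec.const 2) (Primrec.const 3))
    have h4 : Primrec fun p : (ℕ × ℕ) × ℕ => en p.1.1 p.1.2 p.2 :=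
      (Primrec.list_getD _).comp ((Primrec.list_getD _).comp ((Primrec.list_getD _).comp
        (Primrec.const TB) (Primrec.snd.comp Primrec.fst))
        (Primrec.nat_mod.comp Primrec.snd (Primrec.const K))) h3
    have h5 : Primrec fun n : ℕ => (n + 3) * K :=
      Primrec.nat_mul.comp (Primrec.nat_add.comp Primrec.id (Primrec.const 3)) (Primrec.const K)
    have h6 : Primrec fun p : (ℕ × ℕ) × ℕ => ((en p.1.1 p.1.2 p.2).1, (en p.1.1 p.1.2 p.2).2.1 +
        K * bif (en p.1.1 p.1.2 p.2).2.2 then 0 else min (p.2 / K + 1) (p.1.1 + 2)) :=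
      (Primrec.fst.comp h4).pair (Primrec.nat_add.comp (Primrec.fst.comp (Primrec.snd.comp h4))
        (Primrec.nat_mul.comp (Primrec.const K) (Primrec.cond (Primrec.snd.comp (Primrec.snd.comp h4))
          (Primrec.const 0) (Primrec.nat_min.comp (Primrec.succ.comp h1)
            (Primrec.nat_add.comp h2 (Primrec.const 2))))))
    have h7 : Primrec fun p : ℕ × ℕ => (List.range ((p.1 + 3) * K)).map fun x => ((en p.1 p.2 x).1,
        (en p.1 p.2 x).2.1 + K * bif (en p.1 p.2 x).2.2 then 0 else min (x / K + 1) (p.1 + 2)) :=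
      Primrec.list_map (Primrec.list_range.comp (h5.comp Primrec.fst)) h6.to₂
    exact (Primrec.const m).pair (h5.pair (Primrec.list_map (Primrec.const _) h7.to₂))
  refine hM (ComputablePred.of_eq ⟨inferInstance, hP.comp hI.to_comp⟩ fun n => ?_)
  let eA : Fin (n + 3) × F Γ Λ ≃ Fin ((n + 3) * K) :=
    ((Equiv.refl _).prodCongr eF).trans finProdFinEquiv
  let δ : Fin m → Fin ((n + 3) * K) → Fin m := fun q x => eQ (dd M a b c n (eQ.symm q) (eA.symm x))
  let o : Fin m → Fin ((n + 3) * K) → Fin ((n + 3) * K) := fun q x =>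
    eA (oo M n (eQ.symm q) (eA.symm x))
  have e : I n = (m, (n + 3) * K, List.ofFn fun q => List.ofFn fun x => ((δ q x : ℕ), (o q x : ℕ))) := by
    refine Prod.ext rfl (Prod.ext rfl (List.ext_getElem (by simp [I]) fun q h1 _ => ?_))
    have hq : q < m := by simpa [I] using h1
    simp only [I, List.getElem_map, List.getElem_range, List.getElem_ofFn]
    refine List.ext_getElem (by simp) fun x h2 _ => ?_
    have hx : x < (n + 3) * K := by simpa using h2
    have hK : 0 < K := Nat.pos_of_ne_zero fun e => by simp [e] at hx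
    have h3 : cls n (x / K) < 4 := by unfold cls; split_ifs <;> omega
    have h4 : eA.symm ⟨x, hx⟩ = (⟨x / K, Nat.div_lt_of_lt_mul (mul_comm K _ ▸ hx)⟩, df (x % K)) := by
      simp only [df, dif_pos (Nat.mod_lt x hK)]; rfl
    have h5 : eQ.symm ⟨q, hq⟩ = dq q := by simp only [dq, dif_pos hq]
    simp only [List.getElem_map, List.getElem_range, List.getElem_ofFn, en, TB, getD_range _ hq,
      getD_range _ (Nat.mod_lt x hK), getD_range _ h3, δ, o, h4, h5]
    rfl
  haveI : Nonempty (Fin m) := ⟨eQ default⟩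
  beta_reduce
  rw [e, hW, wr_iff, ← delay_iff M a b c]
  exact ⟨Delay.map _ _ eQ.symm eA.symm (fun q x => by simp [δ]) fun q x => by simp [o],
    Delay.map _ _ eQ eA (fun q x => by simp [δ]) fun q x => by simp [o]⟩

end Pool.Agent.Results.MP_5b5905_lc.Undecidable
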